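import Mathlib
import Pool.Agent.H627.UB.Pj

/-!
# Iterated preimages of bounded degree: a bound polynomial in the heights

For all `N ≥ 1`, `d ≥ 2` and `D ≥ 1` there are `C > 0` and `k` such that, for every number field
`K` of degree at most `D`, every morphism `g : ℙ^N → ℙ^N` of degree `d` defined over `K` and every
point `a` of `ℙ^N` over a number field containing `K`, the set `Preim(g, a, D)` of the points `x`
of degree at most `D` over `ℚ` with `g^n(x) = a` for some `n ≥ 0` has at most
`C (1 + h(g) + h(a)) ^ k` elements.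
-/

set_option autoImplicit false

namespace Pool.Agent.Results.MP_2d1f13_nt.PreimagesPolynomialInHeight

open NumberField Module MvPolynomial Filter Topology
open scoped LinearAlgebra.Projectivization

noncomputable section

/-- `IsMorphism d F`: the polynomials `F_0, …, F_N` over `K` are homogeneous of degree `d` and
their only common zero in an algebraic closure of `K` is the origin, so that
`[F_0 : … : F_N]` is a morphism `ℙ^N → ℙ^N` of degree `d` defined over `K`. -/
def IsMorphism {K : Type} [Field K] {N : ℕ} (d : ℕ)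
    (F : Fin (N + 1) → MvPolynomial (Fin (N + 1)) K) : Prop :=
  (∀ i, (F i).IsHomogeneous d) ∧
    ∀ z : Fin (N + 1) → AlgebraicClosure K, (∀ i, aeval z (F i) = 0) → z = 0

/-- The polynomial map `z ↦ (F_0(z), …, F_N(z))` of `M ^ (N + 1)`, for a field `M` over `K`. -/
def evalMap {K : Type} [Field K] {M : Type} [Field M] [Algebra K M] {N : ℕ}
    (F : Fin (N + 1) → MvPolynomial (Fin (N + 1)) K) (z : Fin (N + 1) → M) : Fin (N + 1) → M :=
  fun i => aeval z (F i)

/-- `IsIteratedPreimage F P a`: some iterate of `[F_0 : … : F_N]` (possibly the identity) maps the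
point `P` of `ℙ^N(M)` to the point `a`. -/
def IsIteratedPreimage {K : Type} [Field K] {M : Type} [Field M] [Algebra K M] {N : ℕ}
    (F : Fin (N + 1) → MvPolynomial (Fin (N + 1)) K) (P a : ℙ M (Fin (N + 1) → M)) : Prop :=
  ∃ n : ℕ, ∃ c : M, c ≠ 0 ∧ (evalMap F)^[n] P.rep = c • a.rep

/-- `HasDegreeLE D P`: the point `P` of `ℙ^N(M)` has coordinates in a subfield of `M` of degree at
most `D` over `ℚ`. -/
def HasDegreeLE {M : Type} [Field M] [NumberField M] {N : ℕ} (D : ℕ)
    (P : ℙ M (Fin (N + 1) → M)) : Prop :=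
  ∃ E : IntermediateField ℚ M, finrank ℚ E ≤ D ∧ ∃ c : M, c ≠ 0 ∧ ∀ i, c * P.rep i ∈ E

/-- The height `h(g)` of `g = [F_0 : … : F_N]`: Mathlib's logarithmic height `Height.logHeight`
(relative to `K`) of the vector of all coefficients of all the `F_i`, indexed by the pairs
`(i, s)` with `s` an exponent of total degree `d`. -/
def mapHeight {K : Type} [Field K] [NumberField K] {N : ℕ} (d : ℕ)
    (F : Fin (N + 1) → MvPolynomial (Fin (N + 1)) K) : ℝ :=
  Height.logHeight (fun p : Fin (N + 1) × {s : Fin (N + 1) →₀ ℕ //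
    s ∈ (Finset.univ : Finset (Fin (N + 1))).finsuppAntidiag d} => (F p.1).coeff p.2.1)

/-- The absolute logarithmic Weil height `h(a)` of a point of `ℙ^N(M)`: Mathlib's
`Height.logHeight` (relative to `M`) divided by `[M : ℚ]`. -/
def pointHeight {M : Type} [Field M] [NumberField M] {N : ℕ} (a : ℙ M (Fin (N + 1) → M)) : ℝ :=
  Height.logHeight a.rep / (finrank ℚ M : ℝ)

/-- **Iterated preimages of bounded degree: a bound which is polynomial in the heights of the
morphism and of the point.** -/
theorem result (N d D : ℕ) (hN : 1 ≤ N) (hd : 2 ≤ d) (hD : 1 ≤ D) :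
    ∃ (C : ℝ) (k : ℕ), 0 < C ∧ ∀ (K : Type) [Field K] [NumberField K], finrank ℚ K ≤ D →
      ∀ F : Fin (N + 1) → MvPolynomial (Fin (N + 1)) K, IsMorphism d F →
      ∀ (M : Type) [Field M] [NumberField M] [Algebra K M] (a : ℙ M (Fin (N + 1) → M)),
      ∀ T : Set (ℙ M (Fin (N + 1) → M)), T = {P | HasDegreeLE D P ∧ IsIteratedPreimage F P a} →
      T.Finite ∧ (T.ncard : ℝ) ≤ C * (1 + mapHeight d F + pointHeight a) ^ k := by
  obtain ⟨C, k, hC, h⟩ := H627.UB.preim N d D hN hd hD
  refine ⟨C, k, hC, fun K _ _ hKD F hF M _ _ _ a T hT => ?_⟩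
  classical
  have hS : ∀ S : Finset (ℙ M (Fin (N + 1) → M)), (S : Set (ℙ M (Fin (N + 1) → M))) ⊆ T →
      (S.card : ℝ) ≤ C * (1 + mapHeight d F + pointHeight a) ^ k := by
    intro S hST
    refine h K hKD F hF.1 hF.2 M a S (fun P hP => ?_) (fun P hP => ?_)
    · have hPT := hST hP
      rw [hT] at hPT
      exact hPT.1
    · have hPT := hST hP
      rw [hT] at hPT
      exact hPT.2
  have hfin : T.Finite := by
    by_contra hinf
    obtain ⟨n, hn⟩ := exists_nat_gt (C * (1 + mapHeight d F + pointHeight a) ^ k)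
    obtain ⟨S, hST, hcard⟩ := (show T.Infinite from hinf).exists_subset_card_eq n
    have := hS S hST
    rw [hcard] at this
    linarith
  refine ⟨hfin, ?_⟩
  rw [Set.ncard_eq_toFinset_card T hfin]
  exact hS _ (by simp)

end

end Pool.Agent.Results.MP_2d1f13_nt.PreimagesPolynomialInHeight
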